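import Mathlib
import Pool.Agent.K7.H71.RhoK

set_option autoImplicit false

/-!
# `ε_k = 1` without groups of exponent dividing `k`

The positive answer to Q2: `ε_48 = 1`, but the exponent of a finite non-soluble group does not divide
`48`; and the same for all `k = 2 ^ a 3 ^ b` with `a ≥ 4`, `b ≥ 1`.
-/

namespace Pool.Agent.Results.MP_3e83d2_al.EpsilonOne

/-- `ρ_k(G)`: the proportion of the elements of the finite group `G` whose order divides `k`. -/
noncomputable def rho (k : ℕ) (G : Type) [Group G] : ℝ :=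
  (Nat.card {g : G // orderOf g ∣ k} : ℝ) / Nat.card G

/-- `ε_k`: the supremum of `ρ_k(G)` over all finite non-soluble groups `G`. -/
noncomputable def epsilon (k : ℕ) : ℝ :=
  sSup {r : ℝ | ∃ (G : Type) (_ : Group G) (_ : Finite G), ¬ Group.IsSolvable G ∧ r = rho k G}

theorem result : ∀ a b : ℕ, 4 ≤ a → 1 ≤ b → epsilon (2 ^ a * 3 ^ b) = 1 ∧
    ∀ (G : Type) [Group G] [Finite G], ¬ Group.IsSolvable G →
      ¬ Monoid.exponent G ∣ 2 ^ a * 3 ^ b := by
  intro a b ha hb
  refine ⟨K7.H71.RhoK.epsilon_eq_one (K7.H71.RhoK.dvd_48 ha hb), ?_⟩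
  intro G _ _ h h'
  exact h (K7.H71.RhoK.solvable_of_exponent h')

end Pool.Agent.Results.MP_3e83d2_al.EpsilonOne
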