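import Mathlib
import Pool.Agent.K7.H71.RhoK

set_option autoImplicit false

/-!
# The supremum `ε_k` is not attained for `k = 2 ^ a 3 ^ b`, `a ≥ 4`, `b ≥ 1`

The negative answer to Q1: `ρ_48(G) < ε_48` for every finite non-soluble group `G`, and the same for all
`k = 2 ^ a 3 ^ b` with `a ≥ 4`, `b ≥ 1`.
-/

namespace Pool.Agent.Results.MP_3e83d2_al.NotAttained

/-- `ρ_k(G)`: the proportion of the elements of the finite group `G` whose order divides `k`. -/
noncomputable def rho (k : ℕ) (G : Type) [Group G] : ℝ :=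
  (Nat.card {g : G // orderOf g ∣ k} : ℝ) / Nat.card G

/-- `ε_k`: the supremum of `ρ_k(G)` over all finite non-soluble groups `G`. -/
noncomputable def epsilon (k : ℕ) : ℝ :=
  sSup {r : ℝ | ∃ (G : Type) (_ : Group G) (_ : Finite G), ¬ Group.IsSolvable G ∧ r = rho k G}

theorem result : ∀ a b : ℕ, 4 ≤ a → 1 ≤ b → ∀ (G : Type) [Group G] [Finite G],
    ¬ Group.IsSolvable G → rho (2 ^ a * 3 ^ b) G < epsilon (2 ^ a * 3 ^ b) := by
  intro a b ha hb G _ _ h
  exact K7.H71.RhoK.rho_lt_epsilon ha hb h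

end Pool.Agent.Results.MP_3e83d2_al.NotAttained
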